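import Pool.Agent.Helper1_Eng.Esp

/-!
Squad ENG, module DEV.
-/

set_option autoImplicit false

namespace Pool.Agent.Eng.H1

section
variable {F K : Type} [Field F] [Field K] [Algebra F K]

/-- the form `Tr (det)` on `K × K` -/
noncomputable def om (F K : Type) [Field F] [Field K] [Algebra F K] :
    (K × K) →ₗ[F] (K × K) →ₗ[F] F :=
  LinearMap.mk₂ F (fun u v => Algebra.trace F K (u.1 * v.2 - u.2 * v.1))
    (by
      intro a b c
      rw [← map_add]
      congr 1
      simp only [Prod.fst_add, Prod.snd_add]
      ring)
    (by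
      intro c a b
      rw [← map_smul]
      congr 1
      simp only [Prod.smul_fst, Prod.smul_snd, smul_mul_assoc, smul_sub])
    (by
      intro a b c
      rw [← map_add]
      congr 1
      simp only [Prod.fst_add, Prod.snd_add]
      ring)
    (by
      intro c a b
      rw [← map_smul]
      congr 1
      simp only [Prod.smul_fst, Prod.smul_snd, mul_smul_comm, smul_sub])

theorem om_apply (u v : K × K) : om F K u v = Algebra.trace F K (u.1 * v.2 - u.2 * v.1) := rfl

/-- transvections -/
noncomputable def tv (F : Type) {K : Type} [Field F] [Field K] [Algebra F K] (s : K) :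
    (K × K) ≃ₗ[F] (K × K) where
  toFun u := (u.1 + s * u.2, u.2)
  map_add' u v := by
    ext <;> simp only [Prod.fst_add, Prod.snd_add]
    ring
  map_smul' c u := by
    ext <;> simp only [Prod.smul_fst, Prod.smul_snd, RingHom.id_apply, smul_add, mul_smul_comm]
  invFun u := (u.1 - s * u.2, u.2)
  left_inv u := by
    ext <;> simp
  right_inv u := by
    ext <;> simp

/-- the torus -/
noncomputable def ty (F : Type) {K : Type} [Field F] [Field K] [Algebra F K] (t : K)
    (ht : t ≠ 0) : (K × K) ≃ₗ[F] (K × K) where
  toFun u := (t⁻¹ * u.1, t * u.2)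
  map_add' u v := by
    ext <;> simp only [Prod.fst_add, Prod.snd_add] <;> ring
  map_smul' c u := by
    ext <;> simp only [Prod.smul_fst, Prod.smul_snd, RingHom.id_apply, mul_smul_comm]
  invFun u := (t * u.1, t⁻¹ * u.2)
  left_inv u := by
    ext
    · simp only
      rw [← mul_assoc, mul_inv_cancel₀ ht, one_mul]
    · simp only
      rw [← mul_assoc, inv_mul_cancel₀ ht, one_mul]
  right_inv u := by
    ext
    · simp only
      rw [← mul_assoc, inv_mul_cancel₀ ht, one_mul]
    · simp only
      rw [← mul_assoc, mul_inv_cancel₀ ht, one_mul]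

end

theorem aux1 {K : Type} [Field K] {t : K} (ht : t ≠ 0) (a b c d : K) :
    (t⁻¹ * a) * (t * b) - (t * c) * (t⁻¹ * d) = a * b - c * d := by
  field_simp

theorem aux2 {K : Type} [Field K] {t : K} (ht : t ≠ 0) (a b m : K) :
    t * (t⁻¹ * a + m * (t * b)) = a + (t ^ 2 * m) * b := by
  field_simp

theorem aux3 {K : Type} [Field K] {t : K} (ht : t ≠ 0) (b : K) : t⁻¹ * (t * b) = b := by
  field_simp

theorem dev (hd : DnsStmt) (ha : SpAbStmt) (hm : SpMonoStmt) : DevStmt := by
  intro F _ _ n h2 hn
  refine hm F 2 n 2 hn ?_
  obtain ⟨ch, hch⟩ := CharP.exists F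
  have hprime : ch.Prime := CharP.char_is_prime F ch
  haveI : Fact ch.Prime := ⟨hprime⟩
  haveI : NeZero 2 := ⟨by norm_num⟩
  let K := FiniteField.Extension F ch 2
  have hcard : Nat.card K = Nat.card F ^ 2 := FiniteField.natCard_extension F ch 2
  have hrank : Module.finrank F K = 2 := FiniteField.finrank_extension F ch 2
  haveI : Finite K := Module.finite_of_finite F
  have h2K : (2 : K) ≠ 0 := by
    intro e
    apply h2
    have h3 : algebraMap F K 2 = algebraMap F K 0 := by
      rw [map_ofNat, map_zero]
      exact e
    exact (algebraMap F K).injective h3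
  have hF3 : 3 ≤ Nat.card F := by
    by_contra hcon
    push Not at hcon
    have h1 : 1 < Nat.card F := Finite.one_lt_card
    have h4 : Nat.card F = 2 := by omega
    apply h2
    haveI := Fintype.ofFinite F
    have h5 : (Fintype.card F : F) = 0 := Nat.cast_card_eq_zero F
    rw [← Nat.card_eq_fintype_card, h4] at h5
    exact_mod_cast h5
  obtain ⟨t, ht, hsq⟩ := hd K h2K (by rw [hcard]; nlinarith)
  intro d hd0 hL
  have hsymp : IsSymp (om F K) := by
    refine ⟨?_, ?_⟩
    · intro v
      rw [om_apply, mul_comm v.1 v.2, sub_self, map_zero]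
    · intro u hu
      have h1 : u.1 = 0 := by
        apply trace_nd F K
        intro v
        have := hu (0, v)
        rw [om_apply] at this
        simpa using this
      have h3 : u.2 = 0 := by
        apply trace_nd F K
        intro v
        have := hu (v, 0)
        rw [om_apply] at this
        simpa using this
      exact Prod.ext h1 h3
  have hfin : Module.finrank F (K × K) = 2 * 2 := by
    rw [Module.finrank_prod, hrank]
  let f : Multiplicative K →* ((K × K) ≃ₗ[F] (K × K)) :=
    { toFun := fun s => tv F (Multiplicative.toAdd s)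
      map_one' := by
        apply LinearEquiv.ext
        intro v
        change (v.1 + (0 : K) * v.2, v.2) = v
        rw [zero_mul, add_zero]
      map_mul' := by
        intro a b
        apply LinearEquiv.ext
        intro v
        change (v.1 + (Multiplicative.toAdd a + Multiplicative.toAdd b) * v.2, v.2)
          = ((v.1 + Multiplicative.toAdd b * v.2) + Multiplicative.toAdd a * v.2, v.2)
        ext
        · simp only
          ring
        · rfl }
  let T : AddMonoid.End K := AddMonoidHom.mulLeft (t ^ 2)
  obtain ⟨r, hr⟩ := ha F (K × K) (om F K) 2 hsymp hfin K f (ty F t ht) T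
    (by
      intro m u v
      change om F K (tv F (Multiplicative.toAdd m) u) (tv F (Multiplicative.toAdd m) v) = om F K u v
      rw [om_apply, om_apply]
      congr 1
      change (u.1 + Multiplicative.toAdd m * u.2) * v.2 - u.2 * (v.1 + Multiplicative.toAdd m * v.2)
        = u.1 * v.2 - u.2 * v.1
      ring)
    (by
      intro u v
      rw [om_apply, om_apply]
      congr 1
      exact aux1 ht u.1 v.2 u.2 v.1)
    (by
      rintro m ⟨c, hc⟩
      have h1 := congrArg Prod.fst (hc ((0 : K), (1 : K)))
      change (0 : K) + m * 1 = c • (0 : K) at h1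
      rw [smul_zero, zero_add, mul_one] at h1
      exact h1)
    (by
      intro m
      apply LinearEquiv.ext
      intro v
      exact Prod.ext (aux2 ht v.1 v.2 m) (aux3 ht v.2))
    d hL
  -- apply to `1`
  have hT : ∀ (j : ℕ) (x : K), ((T - 1) ^ j) x = (t ^ 2 - 1) ^ j * x := by
    intro j
    induction j with
    | zero =>
      intro x
      rw [pow_zero, pow_zero, one_mul]
      rfl
    | succ j ih =>
      intro x
      rw [pow_succ, pow_succ]
      change ((T - 1) ^ j) ((T - 1) x) = _
      rw [ih]
      change (t ^ 2 - 1) ^ j * (t ^ 2 * x - x) = _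
      ring
  have h1 : (t ^ 2 - 1) ^ (r + d) * 1 = (t ^ 2 - 1) ^ r * (1 : K) := by
    rw [← hT, ← hT, hr]
  rw [mul_one, mul_one, pow_add] at h1
  set u : K := t ^ 2 - 1 with hu
  have hu0 : u ≠ 0 := by
    intro e
    apply hsq
    rw [e]
    exact ⟨0, by rw [mul_zero]⟩
  have hud : u ^ d = 1 := by
    have h3 : u ^ r * u ^ d = u ^ r * 1 := by rw [h1, mul_one]
    exact mul_left_cancel₀ (pow_ne_zero r hu0) h3
  by_contra hodd
  have hodd' : Odd d := by
    rw [← Nat.not_even_iff_odd, even_iff_two_dvd]
    exact hodd
  obtain ⟨e, he⟩ := hodd'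
  apply hsq
  refine ⟨u ^ (e + 1), ?_⟩
  have : u ^ (e + 1) * u ^ (e + 1) = u ^ d * u := by
    rw [← pow_add, ← pow_succ]
    congr 1
    omega
  rw [this, hud, one_mul]

end Pool.Agent.Eng.H1
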