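import Pool.Agent.Helper6_Eng.Stmts

/-!
Squad ENG, module ESP.
-/

set_option autoImplicit false

namespace Pool.Agent.Eng.H1

open Matrix

/-- the trace form of an extension of finite fields is nondegenerate -/
theorem trace_nd (F K : Type) [Field F] [Finite F] [Field K] [Algebra F K]
    [FiniteDimensional F K] (u : K) (h : ∀ v : K, Algebra.trace F K (u * v) = 0) : u = 0 := by
  have h1 := (traceForm_nondegenerate F K).1 u
  apply h1
  intro v
  rw [Algebra.traceForm_apply]
  exact h v

theorem esp (hr : Sl2RingStmt) (hf : Sl2FinStmt) : EspStmt := by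
  intro F _ _ p k i hp hp2 hk hi hdiv hne
  obtain ⟨ch, hch⟩ := CharP.exists F
  have hprime : ch.Prime := CharP.char_is_prime F ch
  haveI : Fact ch.Prime := ⟨hprime⟩
  haveI : NeZero i := ⟨by omega⟩
  let K := FiniteField.Extension F ch i
  have hcard : Nat.card K = Nat.card F ^ i := FiniteField.natCard_extension F ch i
  have hrank : Module.finrank F K = i := FiniteField.finrank_extension F ch i
  haveI : Finite K := Module.finite_of_finite F
  have hne' : ¬ (p ^ k = 3 ∧ (2 : K) = 0) := by
    rintro ⟨h1, h2⟩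
    apply hne
    refine ⟨h1, ?_⟩
    have h3 : algebraMap F K 2 = algebraMap F K 0 := by
      rw [map_ofNat, map_zero]
      exact h2
    exact (algebraMap F K).injective h3
  obtain ⟨w, z, hb, ho, hc⟩ := hf K p k hp hp2 hk (by rw [hcard]; exact hdiv) hne'
  refine hr F K (Algebra.trace F K) i (p ^ k) hrank (trace_nd F K) w z hb ?_
  intro d c hd h
  set c' : K := algebraMap F K c with hc'
  have h0 : (z : Matrix (Fin 2) (Fin 2) K) * (w : Matrix (Fin 2) (Fin 2) K) ^ (2 * d) =
      c' • ((w : Matrix (Fin 2) (Fin 2) K) ^ (2 * d) * (z : Matrix (Fin 2) (Fin 2) K)) := by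
    rw [h, hc', algebraMap_smul]
  have hc2 : c' ^ 2 = 1 := by
    have h1 := congrArg Matrix.det h0
    rw [Matrix.det_mul, Matrix.det_pow, Matrix.det_smul, Matrix.det_mul, Matrix.det_pow,
      Matrix.SpecialLinearGroup.det_coe, Matrix.SpecialLinearGroup.det_coe] at h1
    simp only [one_pow, mul_one, Fintype.card_fin] at h1
    exact h1.symm
  -- `w ^ (4 d)` commutes with `z`
  have hcomm : w ^ (4 * d) * z = z * w ^ (4 * d) := by
    apply Subtype.ext
    have e : (4 * d) = 2 * d + 2 * d := by ring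
    rw [Matrix.SpecialLinearGroup.coe_mul, Matrix.SpecialLinearGroup.coe_mul,
      Matrix.SpecialLinearGroup.coe_pow, e, pow_add]
    set W : Matrix (Fin 2) (Fin 2) K := (w : Matrix (Fin 2) (Fin 2) K) ^ (2 * d) with hW
    set Z : Matrix (Fin 2) (Fin 2) K := (z : Matrix (Fin 2) (Fin 2) K) with hZ
    calc W * W * Z = (c' ^ 2) • (W * W * Z) := by rw [hc2, one_smul]
      _ = c' • (W * (c' • (W * Z))) := by
        rw [Matrix.mul_smul, smul_smul, Matrix.mul_assoc, pow_two c']
      _ = c' • (W * (Z * W)) := by rw [h0]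
      _ = (c' • (W * Z)) * W := by rw [Matrix.smul_mul, Matrix.mul_assoc]
      _ = Z * (W * W) := by rw [← h0, Matrix.mul_assoc]
  obtain ⟨a, ha⟩ := hc (4 * d) hcomm
  have ha2 : a ^ 2 = 1 := by
    have h1 := congrArg Matrix.det ha
    rw [Matrix.det_pow, Matrix.det_smul, Matrix.SpecialLinearGroup.det_coe, Matrix.det_one] at h1
    simp only [one_pow, mul_one, Fintype.card_fin] at h1
    exact h1.symm
  have h8 : w ^ (8 * d) = 1 := by
    apply Subtype.ext
    have e : (8 * d) = 4 * d + 4 * d := by ring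
    rw [Matrix.SpecialLinearGroup.coe_pow, e, pow_add, ha, Matrix.smul_mul, Matrix.mul_smul,
      smul_smul, ← pow_two, ha2, one_smul, Matrix.one_mul, Matrix.SpecialLinearGroup.coe_one]
  have h9 : p ^ k ∣ 8 * d := by
    rw [← ho]
    exact orderOf_dvd_of_pow_eq_one h8
  have hcop : Nat.Coprime (p ^ k) 8 := by
    apply Nat.Coprime.pow_left
    rw [show (8 : ℕ) = 2 ^ 3 by norm_num]
    apply Nat.Coprime.pow_right
    exact (Nat.coprime_primes hp Nat.prime_two).2 hp2
  exact hcop.dvd_of_dvd_mul_left h9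

end Pool.Agent.Eng.H1
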