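import Pool.Agent.Helper99_Eng3.Stmts
import Pool.Agent.Helper7_Eng.Tfe
import Mathlib.FieldTheory.Galois.NormalBasis

/-!
# Squad ENG, part 3, module OTK: the group `C_P : ⟨σ²⟩` in characteristic 2.
-/

set_option autoImplicit false

namespace Pool.Agent.Eng.H1

open Pool.Agent.Eng Pool.Agent.Eng.H7

local instance fact2 : Fact (Nat.Prime 2) := ⟨Nat.prime_two⟩

theorem std_eq (t : ℕ) (Q : QuadraticForm (ZMod 2) (KK t)) (hQ : IsStd (2 ^ t) Q) (x : KK t) :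
    algebraMap (ZMod 2) (KK t) (Q x) =
      ∑ i ∈ Finset.range (2 ^ t), (x ^ (1 + 2 ^ (2 ^ t))) ^ (2 ^ i) := by
  have h := hQ x
  rw [Nat.card_zmod] at h
  exact h

theorem mu_memO (t : ℕ) (Q : QuadraticForm (ZMod 2) (KK t)) (hQ : IsStd (2 ^ t) Q)
    (c : (KK t)ˣ) (hc : (c : KK t) ^ (2 ^ (2 ^ t) + 1) = 1) : mu t c ∈ OV Q := by
  intro v
  apply (algebraMap (ZMod 2) (KK t)).injective
  rw [std_eq t Q hQ, std_eq t Q hQ]
  apply Finset.sum_congr rfl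
  intro i _
  rw [mu_apply, mul_pow, add_comm 1, hc, one_mul]

/-- The Frobenius as a linear equivalence. -/
noncomputable def fl (t : ℕ) : KK t ≃ₗ[ZMod 2] KK t := (fr t).toLinearEquiv

theorem fl_apply (t : ℕ) (x : KK t) : fl t x = x ^ 2 := fr_apply t x

theorem fl_memO (t : ℕ) (Q : QuadraticForm (ZMod 2) (KK t)) (hQ : IsStd (2 ^ t) Q) :
    fl t ∈ OV Q := by
  intro v
  have h1 : ∀ a : ZMod 2, a ^ 2 = a := by decide
  rw [← h1 (Q v)]
  apply (algebraMap (ZMod 2) (KK t)).injective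
  rw [map_pow, std_eq t Q hQ, std_eq t Q hQ, fl_apply]
  have h2 := (map_sum (fr t) (fun i => (v ^ (1 + 2 ^ (2 ^ t))) ^ (2 ^ i))
    (Finset.range (2 ^ t)))
  rw [fr_apply] at h2
  rw [h2]
  apply Finset.sum_congr rfl
  intro i _
  rw [fr_apply]
  ring

theorem span_fl (t : ℕ) : ∃ θ : KK t,
    Submodule.span (ZMod 2) (Set.range fun i : ℕ => ((fl t) ^ i) θ) = ⊤ := by
  refine ⟨IsGalois.normalBasis (ZMod 2) (KK t) 1, ?_⟩
  rw [eq_top_iff, ← (IsGalois.normalBasis (ZMod 2) (KK t)).span_eq]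
  apply Submodule.span_mono
  rintro _ ⟨e, rfl⟩
  obtain ⟨n, hn⟩ := (FiniteField.bijective_frobeniusAlgEquivOfAlgebraic_pow (ZMod 2) (KK t)).2 e
  refine ⟨n.1, ?_⟩
  have h : ∀ (k : ℕ) (x : KK t), ((fl t) ^ k) x = (fr t ^ k) x := by
    intro k
    induction k with
    | zero => intro x; rfl
    | succ k ih =>
      intro x
      rw [pow_succ (fl t) k, pow_succ (fr t) k]
      change ((fl t) ^ k) (fl t x) = (fr t ^ k) (fr t x)
      rw [ih]
      rfl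
  have h5 : fr t ^ n.1 = e := hn
  calc ((fl t) ^ n.1) (IsGalois.normalBasis (ZMod 2) (KK t) 1)
      = (fr t ^ n.1) (IsGalois.normalBasis (ZMod 2) (KK t) 1) := h _ _
    _ = e (IsGalois.normalBasis (ZMod 2) (KK t) 1) := by rw [h5]
    _ = IsGalois.normalBasis (ZMod 2) (KK t) e := (IsGalois.normalBasis_apply e).symm

theorem otk (hTnt : TntStmt) (hOstd : OstdStmt) (hOreal : OrealStmt) : OtkStmt := by
  intro t ht
  obtain ⟨P, hP, hPd, hPo⟩ := hTnt t ht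
  have hfin : Module.finrank (ZMod 2) (KK t) = 2 * 2 ^ t := finrank_KK t
  obtain ⟨⟨Q, hQ⟩, hND⟩ := hOstd (ZMod 2) (KK t) (2 ^ t) Nat.one_le_two_pow hfin
  refine ⟨KK t, inferInstance, inferInstance, inferInstance, Q, hND Q hQ,
    by rw [hfin, pow_succ']; , ?_⟩
  intro d hd hL
  apply hPo d hd
  have : Fact P.Prime := ⟨hP⟩
  obtain ⟨z, hz⟩ := exists_zeta t P hP hPd
  have hzp : z ^ P = 1 := by rw [← hz, pow_orderOf_eq_one]
  have hzQ : z ^ (2 ^ (2 ^ t) + 1) = 1 := by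
    obtain ⟨c, hc⟩ := hPd
    rw [hc, pow_mul, hzp, one_pow]
  obtain ⟨θ, hθ⟩ := span_fl t
  obtain ⟨hgg, -⟩ := hOreal (ZMod 2) (KK t) Q (hND Q hQ) (fl t) (fl_memO t Q hQ) θ hθ
  obtain ⟨r, hr⟩ := hL
  set y : KK t ≃ₗ[ZMod 2] KK t := (fl t * fl t)⁻¹ with hy
  have hyO : y ∈ OmV Q := (OmV Q).inv_mem hgg
  have hpow : ∀ k : ℕ, mu t (z ^ k) ∈ OV Q := by
    intro k
    apply mu_memO t Q hQ
    rw [← Units.val_pow_eq_pow_val, pow_right_comm, hzQ, one_pow, Units.val_one]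
  have hconj : ∀ k : ℕ, y⁻¹ * mu t (z ^ k) * y = mu t (z ^ (4 * k)) := by
    intro k
    rw [hy, inv_inv, mul_inv_eq_iff_eq_mul]
    ext x
    change fl t (fl t (mu t (z ^ k) x)) = mu t (z ^ (4 * k)) (fl t (fl t x))
    rw [fl_apply, fl_apply, fl_apply, fl_apply, mu_apply, mu_apply, mul_pow, mul_pow,
      ← Units.val_pow_eq_pow_val, ← Units.val_pow_eq_pow_val, ← pow_mul, ← pow_mul]
    congr 3
    ring
  have heng : ∀ k : ℕ, eng y (mu t (z ^ k)) = mu t (z ^ (3 * k)) := by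
    intro k
    have h1 : eng y (mu t (z ^ k)) = (mu t (z ^ k))⁻¹ * (y⁻¹ * mu t (z ^ k) * y) := by
      unfold eng
      group
    rw [h1, hconj, inv_mul_eq_iff_eq_mul, ← map_mul, ← pow_add]
    congr 2
    ring
  have hit : ∀ n : ℕ, (eng y)^[n] (mu t (z ^ 1)) = mu t (z ^ (3 ^ n)) := by
    intro n
    induction n with
    | zero => rfl
    | succ n ih => rw [Function.iterate_succ_apply', ih, heng, pow_succ' 3 n]
  obtain ⟨c, hc⟩ := hr (mu t (z ^ 1)) (hpow 1) y hyO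
  have h1 := hc 1
  rw [hit, hit, mu_apply, mu_apply, mul_one, mul_one] at h1
  have hc1 : c = 1 := by
    rcases (by decide : ∀ c : ZMod 2, c = 0 ∨ c = 1) c with h | h
    · rw [h, zero_smul] at h1
      exact absurd h1 (Units.ne_zero _)
    · exact h
  rw [hc1, one_smul] at h1
  have h2 : z ^ (3 ^ (r + d)) = z ^ (3 ^ r) := Units.ext h1
  have h3 : ((3 : ZMod P)) ^ (r + d) = 3 ^ r := by
    have h4 : ((3 ^ (r + d) : ℕ) : ZMod P) = ((3 ^ r : ℕ) : ZMod P) := by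
      rw [ZMod.natCast_eq_natCast_iff, ← hz]
      exact pow_eq_pow_iff_modEq.mp h2
    push_cast at h4
    exact h4
  have h30 : (3 : ZMod P) ≠ 0 := by
    intro h0
    have h7 : ((3 : ℕ) : ZMod P) = 0 := by exact_mod_cast h0
    rw [ZMod.natCast_eq_zero_iff] at h7
    have h8 : P = 3 := (Nat.prime_dvd_prime_iff_eq hP Nat.prime_three).1 h7
    rw [h8] at hPd
    obtain ⟨s, rfl⟩ : ∃ s, t = s + 1 := ⟨t - 1, by omega⟩
    have h9 : 2 ^ 2 ^ (s + 1) = 4 ^ (2 ^ s) := by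
      rw [pow_succ' 2 s, pow_mul]
      norm_num
    rw [h9] at hPd
    have h10 : (4 ^ (2 ^ s) + 1) % 3 = 2 := by
      rw [Nat.add_mod, Nat.pow_mod]
      norm_num
    omega
  have h7 : (3 : ZMod P) ^ r ≠ 0 := pow_ne_zero _ h30
  exact mul_left_cancel₀ h7 (by rw [← pow_add, h3, mul_one])

end Pool.Agent.Eng.H1
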